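import Pool.Agent.R284.GE.Stm

set_option autoImplicit false
open MeasureTheory Filter Topology Polynomial

namespace Pool.Agent.R284.GE.EXCx

/-- Lagrange bound -/
theorem lag {d : ℕ} (P : ℝ[X]) (hP : P.degree < d) (v : Fin d → ℕ) (T g : ℕ) (hg : 1 ≤ g)
    (hv : ∀ i, v i ≤ T) (hgap : ∀ i j, i < j → v i + g ≤ v j) (η : ℝ) (hη : 0 ≤ η)
    (h : ∀ i, |P.eval (v i : ℝ)| ≤ η) :
    |P.eval (T : ℝ)| ≤ d * (η * ((T : ℝ) / g) ^ (d - 1)) := by
  have hinj : Set.InjOn (fun i : Fin d => ((v i : ℕ) : ℝ)) (Finset.univ : Finset (Fin d)) := by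
    intro i _ j _ hij
    have h0 : ((v i : ℕ) : ℝ) = ((v j : ℕ) : ℝ) := hij
    have h1 : v i = v j := by exact_mod_cast h0
    rcases lt_trichotomy i j with h2 | h2 | h2
    · have := hgap i j h2; omega
    · exact h2
    · have := hgap j i h2; omega
  have e := Lagrange.eq_interpolate_of_eval_eq (s := (Finset.univ : Finset (Fin d)))
    (v := fun i : Fin d => ((v i : ℕ) : ℝ)) (r := fun i => P.eval ((v i : ℕ) : ℝ)) (f := P) hinj
    (by simpa using hP) (fun i _ => rfl)
  have hgpos : (0 : ℝ) < g := by exact_mod_cast hg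
  have e2 : P.eval (T : ℝ) = ∑ i : Fin d, P.eval ((v i : ℕ) : ℝ) *
      ∏ j ∈ Finset.univ.erase i, (((v i : ℝ) - v j)⁻¹ * ((T : ℝ) - v j)) := by
    conv_lhs => rw [e]
    rw [Lagrange.interpolate_apply, eval_finset_sum]
    refine Finset.sum_congr rfl fun i _ => ?_
    rw [eval_mul, eval_C]
    congr 1
    unfold Lagrange.basis
    rw [eval_prod]
    refine Finset.prod_congr rfl fun j _ => ?_
    unfold Lagrange.basisDivisor
    simp
  rw [e2]
  refine (Finset.abs_sum_le_sum_abs _ _).trans ?_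
  have hb : ∀ i ∈ (Finset.univ : Finset (Fin d)), |P.eval ((v i : ℕ) : ℝ) *
      ∏ j ∈ Finset.univ.erase i, (((v i : ℝ) - v j)⁻¹ * ((T : ℝ) - v j))| ≤
      η * ((T : ℝ) / g) ^ (d - 1) := by
    intro i _
    rw [abs_mul, Finset.abs_prod]
    refine mul_le_mul (h i) ?_ (Finset.prod_nonneg fun j _ => abs_nonneg _) hη
    have hc : (Finset.univ.erase i : Finset (Fin d)).card = d - 1 := by
      rw [Finset.card_erase_of_mem (Finset.mem_univ i)]; simp
    rw [← hc]
    rw [← Finset.prod_const]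
    refine Finset.prod_le_prod (fun j _ => abs_nonneg _) fun j hj => ?_
    have hij : j ≠ i := (Finset.mem_erase.1 hj).1
    rw [abs_mul, abs_inv, div_eq_inv_mul]
    have h1 : (g : ℝ) ≤ |(v i : ℝ) - v j| := by
      rcases lt_or_gt_of_ne hij with h2 | h2
      · have h3 := hgap j i h2
        have h4 : (v j : ℝ) + g ≤ v i := by exact_mod_cast h3
        rw [abs_of_nonneg (by linarith)]; linarith
      · have h3 := hgap i j h2
        have h4 : (v i : ℝ) + g ≤ v j := by exact_mod_cast h3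
        rw [abs_of_nonpos (by linarith)]; linarith
    have h2 : |(T : ℝ) - v j| ≤ T := by
      have h3 : (v j : ℝ) ≤ T := by exact_mod_cast hv j
      have h4 : (0 : ℝ) ≤ v j := Nat.cast_nonneg _
      rw [abs_of_nonneg (by linarith)]; linarith
    exact mul_le_mul (inv_anti₀ hgpos h1) h2 (abs_nonneg _) (by positivity)
  refine (Finset.sum_le_sum hb).trans ?_
  simp

/-- selection of nodes among the visits -/
theorem visits {d : ℕ} (hd : 1 ≤ d) (P : ℝ[X]) (hP : P.degree < d) (T g : ℕ) (hg : 1 ≤ g)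
    (η : ℝ) (hη : 0 ≤ η) (S : Finset ℕ) (hS : ∀ i ∈ S, i < T ∧ |P.eval (i : ℝ)| ≤ η)
    (hcard : d * g ≤ S.card) :
    |P.eval (T : ℝ)| ≤ d * (η * ((T : ℝ) / g) ^ (d - 1)) := by
  set e := S.orderEmbOfFin rfl with he
  have hlt : ∀ j : Fin d, (j : ℕ) * g < S.card := by
    intro j
    have : (j : ℕ) * g < d * g := Nat.mul_lt_mul_of_pos_right j.2 hg
    omega
  have hstep : ∀ (a b : ℕ) (ha : a < S.card) (hb : b < S.card), a ≤ b →
      e ⟨a, ha⟩ + (b - a) ≤ e ⟨b, hb⟩ := by
    intro a b ha hb hab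
    induction b, hab using Nat.le_induction with
    | base => simp
    | succ b hab ih =>
      have h1 := ih (by omega)
      have h2 : e ⟨b, by omega⟩ < e ⟨b + 1, hb⟩ := e.strictMono (by
        rw [Fin.mk_lt_mk]; omega)
      omega
  refine lag P hP (fun j => e ⟨(j : ℕ) * g, hlt j⟩) T g hg ?_ ?_ η hη ?_
  · intro j
    exact (hS _ (S.orderEmbOfFin_mem rfl _)).1.le
  · intro i j hij
    have h1 : (i : ℕ) * g + g ≤ (j : ℕ) * g := by
      have : (i : ℕ) + 1 ≤ j := hij
      calc (i : ℕ) * g + g = ((i : ℕ) + 1) * g := by ring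
        _ ≤ (j : ℕ) * g := Nat.mul_le_mul_right _ this
    have h2 := hstep _ _ (hlt i) (hlt j) (by omega)
    omega
  · intro j
    exact (hS _ (S.orderEmbOfFin_mem rfl _)).2

/-- the orbit is polynomial -/
theorem poly_orbit {d : ℕ} (U : Matrix (Fin d) (Fin d) ℤ) (u : Fin d → ℝ)
    (h : act ((U - 1) ^ d) u = 0) (c : Fin d) :
    ∃ P : ℝ[X], P.degree < d ∧ ∀ i : ℕ, P.eval (i : ℝ) = act (U ^ i) u c := by
  have hz : ∀ m, d ≤ m → act ((U - 1) ^ m) u = 0 := by
    intro m hm
    obtain ⟨k, rfl⟩ : ∃ k, m = k + d := ⟨m - d, by omega⟩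
    rw [pow_add, act_mul, h]
    simp [act]
  refine ⟨∑ m ∈ Finset.range d, C (act ((U - 1) ^ m) u c / (m.factorial : ℝ)) *
    descPochhammer ℝ m, ?_, ?_⟩
  · rw [← Polynomial.mem_degreeLT]
    refine Submodule.sum_mem _ fun m hm => ?_
    rw [Polynomial.mem_degreeLT]
    rw [← Polynomial.smul_eq_C_mul]
    refine lt_of_le_of_lt (Polynomial.degree_smul_le _ _) ?_
    have h1 : (descPochhammer ℝ m).natDegree = m := descPochhammer_natDegree ℝ m
    refine lt_of_le_of_lt Polynomial.degree_le_natDegree ?_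
    rw [h1]
    exact_mod_cast Finset.mem_range.1 hm
  · intro i
    have hU : U ^ i = ∑ m ∈ Finset.range (i + 1), (i.choose m) • (U - 1) ^ m := by
      have h1 : U = (U - 1) + 1 := by simp
      conv_lhs => rw [h1]
      rw [(Commute.one_right (U - 1)).add_pow]
      refine Finset.sum_congr rfl fun m _ => ?_
      simp only [one_pow, mul_one, nsmul_eq_mul]
      exact ((Nat.cast_commute (i.choose m) ((U - 1) ^ m)).eq).symm
    have hact : act (U ^ i) u c = ∑ m ∈ Finset.range (i + 1), (i.choose m : ℝ) *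
        act ((U - 1) ^ m) u c := by
      rw [hU]
      unfold act rm
      simp only [Matrix.mulVec, dotProduct, Matrix.map_apply, Matrix.sum_apply]
      simp only [Matrix.smul_apply, nsmul_eq_mul, Int.cast_sum, Int.cast_mul, Int.cast_natCast,
        Finset.sum_mul, Finset.mul_sum]
      rw [Finset.sum_comm]
      refine Finset.sum_congr rfl fun m _ => Finset.sum_congr rfl fun j _ => ?_
      ring
    rw [hact, eval_finset_sum]
    have hterm : ∀ m, (C (act ((U - 1) ^ m) u c / (m.factorial : ℝ)) *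
        descPochhammer ℝ m).eval (i : ℝ) = (i.choose m : ℝ) * act ((U - 1) ^ m) u c := by
      intro m
      rw [eval_mul, eval_C, descPochhammer_eval_eq_descFactorial, Nat.descFactorial_eq_factorial_mul_choose]
      have : (m.factorial : ℝ) ≠ 0 := by exact_mod_cast m.factorial_ne_zero
      push_cast
      field_simp
    simp only [hterm]
    have hA : ∀ m, d ≤ m → (i.choose m : ℝ) * act ((U - 1) ^ m) u c = 0 := by
      intro m hm
      rw [hz m hm]; simp
    have hB : ∀ m, i + 1 ≤ m → (i.choose m : ℝ) * act ((U - 1) ^ m) u c = 0 := by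
      intro m hm
      rw [Nat.choose_eq_zero_of_lt (by omega)]; simp
    rcases le_total d (i + 1) with h1 | h1
    · refine Finset.sum_subset (Finset.range_subset_range.2 h1) fun m _ hm => hA m ?_
      simpa using hm
    · refine (Finset.sum_subset (Finset.range_subset_range.2 h1) fun m _ hm => hB m ?_).symm
      simpa using hm

theorem act_bound {d : ℕ} (U : Matrix (Fin d) (Fin d) ℤ) : ∃ K : ℝ, 1 ≤ K ∧
    ∀ v : Fin d → ℝ, ‖act U v‖ ≤ K * ‖v‖ := by
  refine ⟨1 + ∑ i, ∑ j, |(U i j : ℝ)|, ?_, ?_⟩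
  · have : 0 ≤ ∑ i, ∑ j, |(U i j : ℝ)| := Finset.sum_nonneg fun i _ =>
      Finset.sum_nonneg fun j _ => abs_nonneg _
    linarith
  · intro v
    have hK0 : 0 ≤ ∑ i, ∑ j, |(U i j : ℝ)| := Finset.sum_nonneg fun i _ =>
      Finset.sum_nonneg fun j _ => abs_nonneg _
    rw [pi_norm_le_iff_of_nonneg (by positivity)]
    intro i
    have h1 : act U v i = ∑ j, (U i j : ℝ) * v j := rfl
    rw [h1, Real.norm_eq_abs]
    refine (Finset.abs_sum_le_sum_abs _ _).trans ?_
    have h2 : ∑ j, |(U i j : ℝ) * v j| ≤ (∑ j, |(U i j : ℝ)|) * ‖v‖ := by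
      rw [Finset.sum_mul]
      refine Finset.sum_le_sum fun j _ => ?_
      rw [abs_mul]
      exact mul_le_mul_of_nonneg_left (norm_le_pi_norm v j) (abs_nonneg _)
    refine h2.trans (mul_le_mul_of_nonneg_right ?_ (norm_nonneg _))
    have h3 := Finset.single_le_sum (f := fun i => ∑ j, |(U i j : ℝ)|)
      (fun i _ => Finset.sum_nonneg fun j _ => abs_nonneg _) (Finset.mem_univ i)
    linarith

theorem lift_eq {d : ℕ} (w v : Fin d → ℝ) (hw : ‖w‖ ≤ 1 / 2) (hv : ‖v‖ < 1 / 8)
    (h : pr w = pr v) : w = v := by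
  funext c
  have h1 : ((w c : ℝ) : UnitAddCircle) = (v c : ℝ) := congrFun h c
  have h2 : ((w c - v c : ℝ) : UnitAddCircle) = 0 := by
    rw [AddCircle.coe_sub, h1, sub_self]
  rw [AddCircle.coe_eq_zero_iff] at h2
  obtain ⟨n, hn⟩ := h2
  have h3 : |w c| ≤ 1 / 2 := (norm_le_pi_norm w c).trans hw
  have h4 : |v c| < 1 / 8 := lt_of_le_of_lt (norm_le_pi_norm v c) hv
  have h5 : (n : ℝ) = w c - v c := by simpa using hn
  have h6 : |(n : ℝ)| < 1 := by
    rw [h5]
    refine lt_of_le_of_lt (abs_sub _ _) ?_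
    linarith
  have h7 : n = 0 := by
    have : |n| < 1 := by exact_mod_cast h6
    exact Int.abs_lt_one_iff.1 this
  rw [h7] at h5
  simp at h5
  linarith

theorem iter_bound {d : ℕ} (U : Matrix (Fin d) (Fin d) ℤ) (K : ℝ) (hK : 1 ≤ K)
    (h : ∀ v : Fin d → ℝ, ‖act U v‖ ≤ K * ‖v‖) (u : Fin d → ℝ) (i : ℕ) :
    ‖act (U ^ i) u‖ ≤ K ^ i * ‖u‖ := by
  induction i with
  | zero =>
    have : act (1 : Matrix (Fin d) (Fin d) ℤ) u = u := by
      simp [act, rm, Matrix.map_one]
    rw [pow_zero, pow_zero, this, one_mul]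
  | succ i ih =>
    rw [pow_succ' U, act_mul]
    refine (h _).trans ?_
    rw [pow_succ' K, mul_assoc]
    exact mul_le_mul_of_nonneg_left ih (by linarith)

open scoped Classical in
theorem main : S_EXC := by
  intro d U ω hω
  rcases Nat.eq_zero_or_pos d with hd | hd
  · subst hd
    refine ⟨1 / 16, by norm_num, by norm_num, fun u _ _ h => ?_⟩
    exact absurd (_root_.funext fun i : Fin 0 => i.elim0) h
  obtain ⟨K, hK, hKb⟩ := act_bound U
  set Δ : ℝ := min 1 (ω / (2 * d)) with hΔ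
  have hdpos : (0 : ℝ) < d := by exact_mod_cast hd
  have hΔ0 : 0 < Δ := lt_min one_pos (by positivity)
  have hΔω : d * Δ ≤ ω / 2 := by
    have : Δ ≤ ω / (2 * d) := min_le_right _ _
    calc d * Δ ≤ d * (ω / (2 * d)) := mul_le_mul_of_nonneg_left this hdpos.le
      _ = ω / 2 := by field_simp
  obtain ⟨N0, hN0⟩ := exists_nat_gt (2 * d / ω)
  have hKN : 0 < K ^ N0 := pow_pos (by linarith) _
  set B : ℝ := (1 / Δ) ^ (d - 1) with hB
  have hB0 : 0 < B := by positivity
  set η : ℝ := min (1 / 16) (min (1 / (2 * K ^ N0)) (1 / (4 * (d * B)))) with hη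
  have hη0 : 0 < η := lt_min (by norm_num) (lt_min (by positivity) (by positivity))
  have hη1 : η ≤ 1 / 16 := min_le_left _ _
  have hη2 : η ≤ 1 / (2 * K ^ N0) := (min_le_right _ _).trans (min_le_left _ _)
  have hη3 : η ≤ 1 / (4 * (d * B)) := (min_le_right _ _).trans (min_le_right _ _)
  refine ⟨η, hη0, by linarith, fun u hu h0 hne => ?_⟩
  choose P hPd hPe using fun c => poly_orbit U u h0 c
  -- unboundedness
  have hex : ∃ i : ℕ, 1 / 2 < ‖act (U ^ i) u‖ := by
    by_contra hcon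
    push Not at hcon
    apply hne
    have hconst : ∀ c, (P c).degree ≤ 0 := by
      intro c
      by_contra hc
      push Not at hc
      have h1 := (Polynomial.abs_tendsto_atTop (P c) hc).comp tendsto_natCast_atTop_atTop
      obtain ⟨i, hi⟩ := (h1.eventually (eventually_gt_atTop (1 / 2 : ℝ))).exists
      have h2 : |(P c).eval (i : ℝ)| ≤ 1 / 2 := by
        rw [hPe]
        exact (norm_le_pi_norm (act (U ^ i) u) c).trans (hcon i)
      exact absurd hi (not_lt.2 h2)
    funext c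
    have h1 := Polynomial.eq_C_of_degree_le_zero (hconst c)
    have h2 := hPe c 0
    have h3 := hPe c 1
    rw [h1, eval_C] at h2 h3
    rw [pow_zero] at h2
    rw [pow_one] at h3
    have h4 : act (U - 1) u c = act U u c - act 1 u c := by
      simp only [act, rm, Matrix.mulVec, dotProduct, Matrix.map_apply, Matrix.sub_apply,
        Int.cast_sub, sub_mul, Finset.sum_sub_distrib]
    rw [h4, ← h2, ← h3, sub_self]
    rfl
  set T := Nat.find hex with hT
  have hTs : 1 / 2 < ‖act (U ^ T) u‖ := Nat.find_spec hex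
  have hTm : ∀ i, i < T → ‖act (U ^ i) u‖ ≤ 1 / 2 := fun i hi => not_lt.1 (Nat.find_min hex hi)
  have hTN : N0 < T := by
    by_contra hcon
    push Not at hcon
    have h1 := iter_bound U K hK hKb u T
    have h2 : K ^ T ≤ K ^ N0 := pow_le_pow_right₀ hK hcon
    have h3 : K ^ T * ‖u‖ ≤ K ^ N0 * η := mul_le_mul h2 hu (norm_nonneg _) hKN.le
    have h4 : K ^ N0 * η ≤ 1 / 2 := by
      calc K ^ N0 * η ≤ K ^ N0 * (1 / (2 * K ^ N0)) := mul_le_mul_of_nonneg_left hη2 hKN.le
        _ = 1 / 2 := by field_simp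
    linarith
  have hT1 : 1 ≤ T := by omega
  refine ⟨T, hT1, ?_⟩
  obtain ⟨c, hc⟩ : ∃ c, 1 / 2 < |(P c).eval (T : ℝ)| := by
    by_contra hcon
    push Not at hcon
    have : ‖act (U ^ T) u‖ ≤ 1 / 2 := by
      rw [pi_norm_le_iff_of_nonneg (by norm_num)]
      intro c
      have := hcon c
      rwa [hPe] at this
    linarith
  set S : Finset ℕ := (Finset.range T).filter fun i => pr (act (U ^ i) u) ∈ Ba d η with hS
  have hcardS : Nat.card {i : Fin T | pr (act (U ^ (i : ℕ)) u) ∈ Ba d η} = S.card := by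
    rw [Nat.card_coe_set_eq, Set.ncard_eq_toFinset_card', Set.toFinset_ofPred]
    have : S = (Finset.univ.filter fun i : Fin T =>
        pr (act (U ^ (i : ℕ)) u) ∈ Ba d η).map Fin.valEmbedding := by
      ext i
      simp only [hS, Finset.mem_filter, Finset.mem_range, Finset.mem_map, Finset.mem_univ,
        true_and, Fin.valEmbedding_apply]
      constructor
      · rintro ⟨h1, h2⟩
        exact ⟨⟨i, h1⟩, h2, rfl⟩
      · rintro ⟨j, h1, rfl⟩
        exact ⟨j.2, h1⟩
    rw [this, Finset.card_map]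
  rw [hcardS]
  have hSp : ∀ i ∈ S, i < T ∧ |(P c).eval (i : ℝ)| ≤ η := by
    intro i hi
    rw [hS, Finset.mem_filter, Finset.mem_range] at hi
    obtain ⟨h1, v, h2, h3⟩ := hi
    refine ⟨h1, ?_⟩
    have h4 := lift_eq _ v (hTm i h1) (by linarith) h3
    rw [hPe, h4]
    exact (norm_le_pi_norm v c).trans h2
  set g : ℕ := ⌈Δ * T⌉₊ with hg
  have hTpos : (0 : ℝ) < T := by exact_mod_cast hT1
  have hg1 : 1 ≤ g := Nat.one_le_iff_ne_zero.2 (Nat.ceil_pos.2 (by positivity)).ne'
  have hgl : Δ * T ≤ g := Nat.le_ceil _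
  have hgu : (g : ℝ) < Δ * T + 1 := Nat.ceil_lt_add_one (by positivity)
  by_cases hV : d * g ≤ S.card
  · exfalso
    have h1 := visits hd (P c) (hPd c) T g hg1 η hη0.le S hSp hV
    have hgp : (0 : ℝ) < g := by exact_mod_cast hg1
    have h2 : ((T : ℝ) / g) ^ (d - 1) ≤ B := by
      rw [hB]
      apply pow_le_pow_left₀ (by positivity)
      rw [div_le_div_iff₀ hgp hΔ0]
      linarith
    have h3 : d * (η * ((T : ℝ) / g) ^ (d - 1)) ≤ d * (η * B) :=
      mul_le_mul_of_nonneg_left (mul_le_mul_of_nonneg_left h2 hη0.le) hdpos.le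
    have h4 : d * (η * B) ≤ 1 / 4 := by
      have h5 : η * (d * B) ≤ 1 / (4 * (d * B)) * (d * B) :=
        mul_le_mul_of_nonneg_right hη3 (by positivity)
      have h6 : 1 / (4 * (d * B)) * (d * B) = 1 / 4 := by field_simp
      linarith
    linarith
  · push Not at hV
    have h1 : (S.card : ℝ) ≤ d * g := by exact_mod_cast hV.le
    have h2 : (d : ℝ) * g ≤ d * (Δ * T + 1) := mul_le_mul_of_nonneg_left hgu.le hdpos.le
    have h3 : (N0 : ℝ) < T := by exact_mod_cast hTN
    have h4 : 2 * d / ω < T := hN0.trans h3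
    rw [div_lt_iff₀ hω] at h4
    have h5 : d * Δ * T ≤ ω / 2 * T := mul_le_mul_of_nonneg_right hΔω hTpos.le
    nlinarith

end Pool.Agent.R284.GE.EXCx
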