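import Pool.Agent.R284.GE.Stm

set_option autoImplicit false

namespace Pool.Agent.R284.GE.RES2

open Pool.Agent.R284.GE Filter Topology

theorem rm_pow {d : ℕ} (H : Matrix (Fin d) (Fin d) ℤ) (j : ℕ) : rm (H ^ j) = rm H ^ j := by
  induction j with
  | zero => 
    ext a b
    simp only [rm, pow_zero, Matrix.map_apply, Matrix.one_apply]
    split_ifs <;> simp
  | succ j ih =>
    rw [pow_succ, pow_succ, ← ih]
    ext a b
    simp [rm, Matrix.mul_apply]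

theorem main (hCI : S_CINV) : S_RES := by
  intro d H Ps Pc Pu hdet hN hS
  obtain ⟨Cs, θs, hs0, hs1, hs⟩ := hS.bs
  obtain ⟨Cu, θu, hu0, hu1, hu⟩ := hS.bu
  set X := rm H with hX
  let θ := max θs θu
  have hθ0 : 0 < θ := lt_max_of_lt_left hs0
  have hθ1 : θ < 1 := max_lt hs1 hu1
  let A : ℝ := 1 + |Cs| + |Cu|
  have hA1 : 1 ≤ A := by
    have := abs_nonneg Cs
    have := abs_nonneg Cu
    show 1 ≤ 1 + |Cs| + |Cu|
    linarith
  have hsA : ∀ (j : ℕ) (v : Fin d → ℝ), ‖(X ^ j * Ps).mulVec v‖ ≤ A * θ ^ j * ‖v‖ := by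
    intro j v
    refine (hs j v).trans ?_
    have h1 : Cs ≤ A := by
      have := le_abs_self Cs
      have := abs_nonneg Cu
      show _ ≤ 1 + |Cs| + |Cu|
      linarith
    have h2 : θs ^ j ≤ θ ^ j := pow_le_pow_left₀ hs0.le (le_max_left _ _) j
    have h3 : 0 ≤ θs ^ j := by positivity
    have h4 : Cs * θs ^ j ≤ A * θ ^ j := by nlinarith
    exact mul_le_mul_of_nonneg_right h4 (norm_nonneg _)
  have huA : ∀ (j : ℕ) (v : Fin d → ℝ), ‖(X⁻¹ ^ j * Pu).mulVec v‖ ≤ A * θ ^ j * ‖v‖ := by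
    intro j v
    refine (hu j v).trans ?_
    have h1 : Cu ≤ A := by
      have := le_abs_self Cu
      have := abs_nonneg Cs
      show _ ≤ 1 + |Cs| + |Cu|
      linarith
    have h2 : θu ^ j ≤ θ ^ j := pow_le_pow_left₀ hu0.le (le_max_right _ _) j
    have h3 : 0 ≤ θu ^ j := by positivity
    have h4 : Cu * θu ^ j ≤ A * θ ^ j := by nlinarith
    exact mul_le_mul_of_nonneg_right h4 (norm_nonneg _)
  have hXdet : X.det ≠ 0 := by
    have h1 : (rm H).det = ((H.det : ℤ) : ℝ) := by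
      have := (RingHom.map_det (Int.castRingHom ℝ) H)
      simpa [rm] using this.symm
    rw [hX, h1]
    exact_mod_cast hdet
  have hinv : X⁻¹ * X = 1 := Matrix.nonsing_inv_mul _ (isUnit_iff_ne_zero.2 hXdet)
  have hcomm : ∀ P : Matrix (Fin d) (Fin d) ℝ, X * P = P * X → ∀ j : ℕ, X ^ j * P = P * X ^ j := by
    intro P hp j
    exact ((show Commute X P from hp).pow_left j)
  refine ⟨θ, hθ0, hθ1, ?_⟩
  intro τ hτ M hM
  obtain ⟨Cb, hb⟩ := hS.bc (τ / 2) (by positivity)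
  obtain ⟨Cc, hCc1, hCc⟩ := hCI d H Ps Pc Pu hdet hN hS (τ / 2) (by positivity) M hM
  let B : ℝ := 2 * A * A + |Cb| * Cc
  have hB : 1 ≤ B := by
    have h1 : 0 ≤ |Cb| * Cc := by positivity
    show 1 ≤ 2 * A * A + |Cb| * Cc
    nlinarith
  refine ⟨B, hB, ?_⟩
  intro p0
  have hlim : Tendsto (fun n : ℕ => A * θ ^ n) atTop (𝓝 (A * 0)) :=
    (tendsto_pow_atTop_nhds_zero_of_lt_one hθ0.le hθ1).const_mul A
  rw [mul_zero] at hlim
  obtain ⟨p1, hp1⟩ := eventually_atTop.1 (hlim.eventually_le_const (show (0 : ℝ) < 1 / 2 by norm_num))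
  obtain ⟨p, hpp, hp, hmod, hc⟩ := hCc (max p0 p1)
  refine ⟨p, (le_max_left _ _).trans hpp, hp, hmod, ?_⟩
  have hhalf := hp1 p ((le_max_right _ _).trans hpp)
  intro b u hbu j hj
  have hact : ∀ (v : Fin d → ℝ) (i : ℕ), act (H ^ i) v = (X ^ i).mulVec v := by
    intro v i
    rw [act, rm_pow]
  have hb1 : (X ^ p).mulVec u - u = b := by
    rw [← hbu]
    have : rm (H ^ p - 1) = X ^ p - 1 := by
      rw [hX, ← rm_pow]
      ext a b
      simp only [rm, Matrix.map_apply, Matrix.sub_apply, Matrix.one_apply]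
      split_ifs <;> simp
    rw [act, this, Matrix.sub_mulVec, Matrix.one_mulVec]
  -- for a commuting idempotent
  have hP : ∀ P : Matrix (Fin d) (Fin d) ℝ, X * P = P * X →
      (X ^ p).mulVec (P.mulVec u) = P.mulVec u + P.mulVec b := by
    intro P hp
    rw [← hb1, Matrix.mulVec_sub, Matrix.mulVec_mulVec, Matrix.mulVec_mulVec, hcomm P hp p]
    abel
  have hidem : ∀ P : Matrix (Fin d) (Fin d) ℝ, P * P = P → ∀ v : Fin d → ℝ,
      P.mulVec (P.mulVec v) = P.mulVec v := by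
    intro P hp v
    rw [Matrix.mulVec_mulVec, hp]
  -- stable
  have hs_b : ‖Ps.mulVec b‖ ≤ A * ‖b‖ := by
    have := hsA 0 b
    simpa using this
  have hs_u : ‖Ps.mulVec u‖ ≤ 2 * A * ‖b‖ := by
    have h1 := hP Ps hS.cs
    have h2 := hsA p (Ps.mulVec u)
    rw [← Matrix.mulVec_mulVec, hidem Ps hS.is, h1] at h2
    have h3 : ‖Ps.mulVec u‖ ≤ ‖Ps.mulVec u + Ps.mulVec b‖ + ‖Ps.mulVec b‖ := by
      have := norm_sub_le (Ps.mulVec u + Ps.mulVec b) (Ps.mulVec b)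
      rwa [add_sub_cancel_right] at this
    have h4 : A * θ ^ p * ‖Ps.mulVec u‖ ≤ 1 / 2 * ‖Ps.mulVec u‖ :=
      mul_le_mul_of_nonneg_right hhalf (norm_nonneg _)
    linarith
  have hs_j : ‖(X ^ j).mulVec (Ps.mulVec u)‖ ≤ 2 * A * A * θ ^ j * ‖b‖ := by
    have h2 := hsA j (Ps.mulVec u)
    rw [← Matrix.mulVec_mulVec, hidem Ps hS.is] at h2
    refine h2.trans ?_
    have h3 : 0 ≤ A * θ ^ j := by positivity
    nlinarith [mul_le_mul_of_nonneg_left hs_u h3]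
  -- unstable
  have hu_b : ‖Pu.mulVec b‖ ≤ A * ‖b‖ := by
    have := huA 0 b
    simpa using this
  have hinvpow : ∀ i : ℕ, X⁻¹ ^ i * X ^ i = 1 := by
    intro i
    have hcx : Commute X⁻¹ X := by
      show X⁻¹ * X = X * X⁻¹
      rw [hinv, Matrix.mul_nonsing_inv _ (isUnit_iff_ne_zero.2 hXdet)]
    rw [← hcx.mul_pow, hinv, one_pow]
  set w := (X ^ p).mulVec (Pu.mulVec u) with hw
  have hwP : Pu.mulVec w = w := by
    rw [hw, Matrix.mulVec_mulVec, ← hcomm Pu hS.cu p, ← Matrix.mulVec_mulVec, hidem Pu hS.iu]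
  have hw1 : w = Pu.mulVec u + Pu.mulVec b := hP Pu hS.cu
  have hw2 : ‖Pu.mulVec u‖ ≤ 1 / 2 * ‖w‖ := by
    have h2 := huA p w
    rw [← Matrix.mulVec_mulVec, hwP, hw, Matrix.mulVec_mulVec, hinvpow, Matrix.one_mulVec] at h2
    rw [← hw] at h2
    exact h2.trans (mul_le_mul_of_nonneg_right hhalf (norm_nonneg _))
  have hw3 : ‖w‖ ≤ 2 * A * ‖b‖ := by
    have h3 : ‖w‖ ≤ ‖Pu.mulVec u‖ + ‖Pu.mulVec b‖ := by
      rw [hw1]; exact norm_add_le _ _
    linarith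
  have hu_j : ‖(X ^ j).mulVec (Pu.mulVec u)‖ ≤ 2 * A * A * θ ^ (p - j) * ‖b‖ := by
    have h2 := huA (p - j) w
    rw [← Matrix.mulVec_mulVec, hwP] at h2
    have h5 : X⁻¹ ^ (p - j) * X ^ p = X ^ j := by
      have : X ^ p = X ^ (p - j) * X ^ j := by rw [← pow_add]; congr 1; omega
      rw [this, ← mul_assoc, hinvpow, one_mul]
    have h6 : (X⁻¹ ^ (p - j)).mulVec w = (X ^ j).mulVec (Pu.mulVec u) := by
      rw [hw, Matrix.mulVec_mulVec, h5]
    rw [h6] at h2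
    refine h2.trans ?_
    have h3 : 0 ≤ A * θ ^ (p - j) := by positivity
    nlinarith [mul_le_mul_of_nonneg_left hw3 h3]
  -- central
  have hc_j : ‖(X ^ j).mulVec (Pc.mulVec u)‖ ≤ |Cb| * Cc * (Real.exp (τ * p) * ‖Pc.mulVec b‖) := by
    have h1 := (hb j (Pc.mulVec u)).1
    rw [← Matrix.mulVec_mulVec, hidem Pc hS.ic] at h1
    have h2 := hc u
    rw [hbu] at h2
    have h3 : Real.exp (τ / 2 * j) ≤ Real.exp (τ / 2 * p) := by
      apply Real.exp_le_exp.2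
      have : (j : ℝ) ≤ p := by exact_mod_cast hj
      nlinarith
    have h4 : Real.exp (τ / 2 * p) * Real.exp (τ / 2 * p) = Real.exp (τ * p) := by
      rw [← Real.exp_add]; congr 1; ring
    calc ‖(X ^ j).mulVec (Pc.mulVec u)‖ ≤ Cb * Real.exp (τ / 2 * j) * ‖Pc.mulVec u‖ := h1
      _ ≤ |Cb| * Real.exp (τ / 2 * j) * ‖Pc.mulVec u‖ := by
          gcongr
          exact le_abs_self Cb
      _ ≤ |Cb| * Real.exp (τ / 2 * p) * (Cc * Real.exp (τ / 2 * p) * ‖Pc.mulVec b‖) := by gcongr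
      _ = |Cb| * Cc * ((Real.exp (τ / 2 * p) * Real.exp (τ / 2 * p)) * ‖Pc.mulVec b‖) := by ring
      _ = _ := by rw [h4]
  have hsum : u = Ps.mulVec u + Pc.mulVec u + Pu.mulVec u := by
    rw [← Matrix.add_mulVec, ← Matrix.add_mulVec, hS.sum, Matrix.one_mulVec]
  have hfin : (X ^ j).mulVec u = (X ^ j).mulVec (Ps.mulVec u) + (X ^ j).mulVec (Pc.mulVec u) +
      (X ^ j).mulVec (Pu.mulVec u) := by
    conv_lhs => rw [hsum]
    rw [Matrix.mulVec_add, Matrix.mulVec_add]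
  rw [hact, hfin]
  refine (norm_add₃_le).trans ?_
  have g1 : 0 ≤ θ ^ j * ‖b‖ := by positivity
  have g2 : 0 ≤ θ ^ (p - j) * ‖b‖ := by positivity
  have g3 : 0 ≤ Real.exp (τ * p) * ‖Pc.mulVec b‖ := by positivity
  have g4 : 0 ≤ |Cb| * Cc := by positivity
  have g5 : 0 ≤ 2 * A * A := by positivity
  show _ ≤ (2 * A * A + |Cb| * Cc) * _
  nlinarith [mul_nonneg g4 g1, mul_nonneg g4 g2, mul_nonneg g5 g3]

end Pool.Agent.R284.GE.RES2
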