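import Pool.Agent.R284.GEF.FIN
import Pool.Agent.R284.GEF.POLY
import Pool.Agent.R284.GEF.EXCx
import Pool.Agent.R284.GEF.INTG
import Pool.Agent.R284.GEF.DIV
import Pool.Agent.R284.GEF.LATT
import Pool.Agent.R284.GEF.GELF2
import Pool.Agent.R284.GEF.PROJ
import Pool.Agent.R284.GEF.SPLIT2
import Pool.Agent.R284.GEF.CINV
import Pool.Agent.R284.GEF.RES2
import Pool.Agent.R284.GEF.P1b
import Pool.Agent.R284.GEF.P2
import Pool.Agent.R284.GEF.PPb
import Pool.Agent.R284.GEF.EFF
import Pool.Agent.R284.GEF.ARITH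
import Pool.Agent.R284.GEF.CLOSE
import Pool.Agent.R284.GEF.TRACK
import Pool.Agent.R284.GEF.DENS
import Pool.Agent.R284.GEF.ATOM1
import Pool.Agent.R284.GEF.ATOM2c
import Pool.Agent.R284.GEF.OPN
import Pool.Agent.R284.GEF.DNO
import Pool.Agent.R284.GEF.INVS
import Pool.Agent.R284.GEF.RECB
import Pool.Agent.R284.GEF.BUMP
import Pool.Agent.R284.GEF.MEAG

set_option autoImplicit false

namespace Pool.Agent.R284.GE

theorem final : S_FIN := by
  have hLATT : S_LATT := LATT.main
  have hGELF : S_GELF := GELF2.main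
  have hSPLIT : S_SPLIT := SPLIT2.main hGELF PROJ.main
  have hCINV : S_CINV := CINV.main
  have hRES : S_RES := RES2.main hCINV
  have hP2 : S_P2 := P2.main P1b.main
  have hPP : S_PP := PPb.main hP2 hGELF
  have hEFF : S_EFF := EFF.main hPP
  have hCLOSE : S_CLOSE := CLOSE.main hSPLIT hRES hEFF ARITH.main
  have hTRACK : S_TRACK := TRACK.main hCLOSE hLATT
  have hDENS : S_DENS := DENS.main hTRACK
  have hDIV : S_DIV := DIV.main EXCx.main INTG.main
  have hATOM : S_ATOM := FIN.atom ATOM1.main (ATOM2c.main hSPLIT hRES hEFF)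
  have hNOAT : S_NOAT := FIN.noat OPN.main (DNO.main hATOM)
  have hINVS : S_INVS := INVS.main hLATT
  have hMEAG : S_MEAG := MEAG.main POLY.main hDIV hDENS hINVS RECB.main BUMP.main
  exact FIN.main hNOAT hMEAG

end Pool.Agent.R284.GE
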